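import Mathlib

set_option autoImplicit false

namespace Pool.Agent.Results.MP_81fdd0_co.InfiniteQuotientClique

open FreeGroup

variable {α : Type} [DecidableEq α]

/-- `w` properly overlaps `w'`: some nonempty word `x`, shorter than both, is a suffix of `w` and a
beginning segment of `w'` (elements of the free group are identified with their reduced words). -/
def ProperOverlap (w w' : FreeGroup α) : Prop :=
  ∃ x : List (α × Bool), x ≠ [] ∧ x <:+ w.toWord ∧ x <+: w'.toWord ∧
    x.length < w.toWord.length ∧ x.length < w'.toWord.length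

/-- `w` is non-self-overlapping: `w ≠ 1` and no nonempty word is both a proper beginning segment
and a proper suffix of `w`. -/
def NonSelfOverlapping (w : FreeGroup α) : Prop :=
  w ≠ 1 ∧ ¬ ∃ x : List (α × Bool), x ≠ [] ∧ x.length < w.toWord.length ∧
    x <+: w.toWord ∧ x <:+ w.toWord

/-- The underlying undirected graph of the overlap graph `OG(V)`. -/
def OG (V : Set (FreeGroup α)) : SimpleGraph V where
  Adj w w' := w ≠ w' ∧ (ProperOverlap w.1 w'.1 ∨ ProperOverlap w'.1 w.1)
  symm := ⟨fun _ _ h => ⟨h.1.symm, h.2.symm⟩⟩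
  loopless := ⟨fun _ h => h.1 rfl⟩

/-- The quotient graph of `OG(V)` by inversion. Its vertices are the pairs `{w, w⁻¹}` with `w ∈ V`;
two distinct pairs are adjacent if some element of one is joined in `OG(V)`, in either direction,
to some element of the other. -/
def OGbar (V : Set (FreeGroup α)) :
    SimpleGraph {S : Set (FreeGroup α) // ∃ w ∈ V, S = {w, w⁻¹}} where
  Adj S T := S ≠ T ∧ ∃ w ∈ S.1, ∃ w' ∈ T.1, ProperOverlap w w' ∨ ProperOverlap w' w
  symm := ⟨fun _ _ h => ⟨h.1.symm, by
    obtain ⟨w, hw, w', hw', h2⟩ := h.2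
    exact ⟨w', hw', w, hw, h2.symm⟩⟩⟩
  loopless := ⟨fun _ h => h.1 rfl⟩

/-- The clique number of a possibly infinite graph. -/
noncomputable def cliqueNumber {V : Type} (G : SimpleGraph V) : ℕ∞ :=
  ⨆ (s : Finset V) (_ : G.IsClique (s : Set V)), (s.card : ℕ∞)

/-! ### The words -/

/-- `X 0 = a`, `X (n+1) = X n b (X n)⁻¹`. -/
def X (a b : α) : ℕ → List (α × Bool)
  | 0 => [(a, true)]
  | n + 1 => X a b n ++ (b, true) :: invRev (X a b n)

/-- `W n = b b X n`. -/
def W (a b : α) (n : ℕ) : List (α × Bool) := (b, true) :: (b, true) :: X a b n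

theorem invRev_X_succ (a b : α) (n : ℕ) :
    invRev (X a b (n + 1)) = X a b n ++ (b, false) :: invRev (X a b n) := by
  have h : (b, true) :: invRev (X a b n) = [(b, true)] ++ invRev (X a b n) := rfl
  rw [X, h, invRev_append, invRev_append, invRev_invRev]
  simp [invRev]

theorem X_length (a b : α) (n : ℕ) : (X a b n).length + 1 = 2 ^ (n + 1) := by
  induction n with
  | zero => simp [X]
  | succ n ih =>
    rw [X, List.length_append, List.length_cons, invRev_length, pow_succ, ← ih]
    ring

theorem X_prefix_succ (a b : α) (n : ℕ) : X a b n <+: X a b (n + 1) :=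
  ⟨(b, true) :: invRev (X a b n), rfl⟩

theorem X_prefix (a b : α) {m n : ℕ} (h : m ≤ n) : X a b m <+: X a b n := by
  induction n, h using Nat.le_induction with
  | base => exact List.prefix_rfl
  | succ n _ ih => exact ih.trans (X_prefix_succ a b n)

theorem X_prefix_inv (a b : α) {m n : ℕ} (h : m < n) : X a b m <+: invRev (X a b n) := by
  obtain ⟨k, rfl⟩ : ∃ k, n = k + 1 := ⟨n - 1, by omega⟩
  rw [invRev_X_succ]
  exact (X_prefix a b (Nat.lt_succ_iff.1 h)).trans (List.prefix_append _ _)

/-- Adjacent letters have different generators. -/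
def Alt (L : List (α × Bool)) : Prop := L.IsChain fun p q => p.1 ≠ q.1

theorem Alt.invRev {L : List (α × Bool)} (h : Alt L) : Alt (invRev L) := by
  unfold Alt FreeGroup.invRev at *
  rw [List.isChain_reverse, List.isChain_map]
  exact h.imp fun p q hpq => (Ne.symm hpq)

theorem head_X (a b : α) (n : ℕ) : ∃ l, X a b n = (a, true) :: l := by
  induction n with
  | zero => exact ⟨[], rfl⟩
  | succ n ih =>
    obtain ⟨l, hl⟩ := ih
    exact ⟨l ++ (b, true) :: FreeGroup.invRev (X a b n), by rw [X, hl]; rfl⟩

theorem last_X (a b : α) (n : ℕ) : ∃ l t, X a b n = l ++ [(a, t)] := by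
  cases n with
  | zero => exact ⟨[], true, rfl⟩
  | succ n =>
    obtain ⟨l, hl⟩ := head_X a b n
    refine ⟨X a b n ++ (b, true) :: FreeGroup.invRev l, false, ?_⟩
    rw [X]
    nth_rw 2 [hl]
    rw [FreeGroup.invRev_cons]
    simp [FreeGroup.invRev]

theorem alt_X {a b : α} (hab : a ≠ b) (n : ℕ) : Alt (X a b n) := by
  induction n with
  | zero => exact List.isChain_singleton _
  | succ n ih =>
    obtain ⟨l, t, hl⟩ := last_X a b n
    have hinv : FreeGroup.invRev (X a b n) = (a, !t) :: FreeGroup.invRev l := by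
      rw [hl, FreeGroup.invRev_append]
      simp [FreeGroup.invRev]
    have h2 : Alt ((b, true) :: FreeGroup.invRev (X a b n)) := by
      rw [hinv]
      refine List.isChain_cons_cons.2 ⟨hab.symm, ?_⟩
      rw [← hinv]
      exact ih.invRev
    rw [X]
    refine List.isChain_append.2 ⟨ih, h2, ?_⟩
    intro x hx y hy
    rw [hl] at hx
    simp only [List.getLast?_append, List.getLast?_singleton, Option.some_or, Option.mem_def,
      Option.some.injEq] at hx
    simp only [List.head?_cons, Option.mem_def, Option.some.injEq] at hy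
    rw [← hx, ← hy]
    exact hab

theorem alt_tail_W {a b : α} (hab : a ≠ b) (n : ℕ) : Alt ((b, true) :: X a b n) := by
  obtain ⟨l, hl⟩ := head_X a b n
  have h := alt_X hab n
  rw [hl] at h ⊢
  exact List.isChain_cons_cons.2 ⟨hab.symm, h⟩

theorem isReduced_W {a b : α} (hab : a ≠ b) (n : ℕ) : IsReduced (W a b n) := by
  refine List.isChain_cons_cons.2 ⟨fun _ => rfl, ?_⟩
  exact (alt_tail_W hab n).imp fun p q hpq h => absurd h hpq

/-- The key fact: no nonempty proper suffix of `W i` is a beginning segment of `W j`. -/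
theorem no_overlap {a b : α} (hab : a ≠ b) (i j : ℕ) (x : List (α × Bool)) (hx : x ≠ [])
    (h1 : x <:+ W a b i) (h2 : x <+: W a b j) (h3 : x.length < (W a b i).length) : False := by
  have h4 : x <:+ (b, true) :: X a b i := by
    rcases (List.suffix_cons_iff.1 h1) with h | h
    · rw [h] at h3; exact absurd h3 (lt_irrefl _)
    · exact h
  match x, hx with
  | [p], _ =>
    obtain ⟨l, t, hl⟩ := last_X a b i
    have hp : p = (b, true) := by
      obtain ⟨r, hr⟩ := h2
      have := congrArg List.head? hr
      simpa [W] using this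
    obtain ⟨r, hr⟩ := h4
    rw [hl] at hr
    have := congrArg List.getLast? hr
    simp [hp] at this
    rw [show ((b, true) :: (l ++ [(a, t)])) = ((b, true) :: l) ++ [(a, t)] from rfl,
      List.getLast?_append] at this
    simp at this
    exact hab this.1.symm
  | p :: q :: l, _ =>
    obtain ⟨r, hr⟩ := h2
    have hpq : p = (b, true) ∧ q = (b, true) := by
      simp only [W, List.cons_append, List.cons.injEq] at hr
      exact ⟨hr.1, hr.2.1⟩
    have halt : Alt (p :: q :: l) := (alt_tail_W hab i).suffix h4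
    have := (List.isChain_cons_cons.1 halt).1
    rw [hpq.1, hpq.2] at this
    exact this rfl

/-! ### Group elements -/

/-- The group element of `W n`. -/
def w (a b : α) (n : ℕ) : FreeGroup α := FreeGroup.mk (W a b n)

theorem toWord_w {a b : α} (hab : a ≠ b) (n : ℕ) : (w a b n).toWord = W a b n := by
  rw [w, toWord_mk]
  exact (isReduced_W hab n).reduce_eq

theorem W_length (a b : α) (n : ℕ) : (W a b n).length = 2 ^ (n + 1) + 1 := by
  rw [← X_length a b n]
  simp [W]

theorem invRev_suffix {x L : List (α × Bool)} (h : x <:+ L) :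
    FreeGroup.invRev x <+: FreeGroup.invRev L := by
  obtain ⟨r, hr⟩ := h
  exact ⟨FreeGroup.invRev r, by rw [← FreeGroup.invRev_append, hr]⟩

theorem invRev_prefix {x L : List (α × Bool)} (h : x <+: L) :
    FreeGroup.invRev x <:+ FreeGroup.invRev L := by
  obtain ⟨r, hr⟩ := h
  exact ⟨FreeGroup.invRev r, by rw [← FreeGroup.invRev_append, hr]⟩

theorem invRev_ne_nil {x : List (α × Bool)} (h : x ≠ []) : FreeGroup.invRev x ≠ [] := by
  intro hh
  have : (FreeGroup.invRev x).length = 0 := by rw [hh]; rfl
  rw [FreeGroup.invRev_length] at this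
  exact h (List.length_eq_zero_iff.1 this)

theorem ProperOverlap.inv {u v : FreeGroup α} (h : ProperOverlap u v) : ProperOverlap v⁻¹ u⁻¹ := by
  obtain ⟨x, hx, h1, h2, h3, h4⟩ := h
  refine ⟨FreeGroup.invRev x, invRev_ne_nil hx, ?_, ?_, ?_, ?_⟩
  · rw [toWord_inv]; exact invRev_prefix h2
  · rw [toWord_inv]; exact invRev_suffix h1
  · rw [toWord_inv, FreeGroup.invRev_length, FreeGroup.invRev_length]; exact h4
  · rw [toWord_inv, FreeGroup.invRev_length, FreeGroup.invRev_length]; exact h3

theorem not_overlap_pos {a b : α} (hab : a ≠ b) (i j : ℕ) :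
    ¬ ProperOverlap (w a b i) (w a b j) := by
  rintro ⟨x, hx, h1, h2, h3, _⟩
  rw [toWord_w hab] at h1 h2 h3
  exact no_overlap hab i j x hx h1 h2 h3

theorem not_overlap_neg {a b : α} (hab : a ≠ b) (i j : ℕ) :
    ¬ ProperOverlap (w a b i)⁻¹ (w a b j)⁻¹ := by
  intro h
  have := h.inv
  rw [inv_inv, inv_inv] at this
  exact not_overlap_pos hab j i this

theorem overlap_pos_neg {a b : α} (hab : a ≠ b) {i j : ℕ} (hij : i < j) :
    ProperOverlap (w a b i) (w a b j)⁻¹ := by
  have hX : (X a b i).length < (W a b i).length := by simp [W]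
  have hmono : (W a b i).length ≤ (W a b j).length := by
    rw [W_length, W_length]
    have : 2 ^ (i + 1) ≤ 2 ^ (j + 1) := Nat.pow_le_pow_right (by norm_num) (by omega)
    omega
  refine ⟨X a b i, ?_, ?_, ?_, ?_, ?_⟩
  · obtain ⟨l, hl⟩ := head_X a b i
    rw [hl]; exact List.cons_ne_nil _ _
  · rw [toWord_w hab]
    exact ⟨[(b, true), (b, true)], rfl⟩
  · rw [toWord_inv, toWord_w hab]
    have : W a b j = [(b, true), (b, true)] ++ X a b j := rfl
    rw [this, FreeGroup.invRev_append]
    exact (X_prefix_inv a b hij).trans (List.prefix_append _ _)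
  · rw [toWord_w hab]; exact hX
  · rw [toWord_inv, FreeGroup.invRev_length, toWord_w hab]
    omega

theorem nso_pos {a b : α} (hab : a ≠ b) (i : ℕ) : NonSelfOverlapping (w a b i) := by
  refine ⟨?_, ?_⟩
  · intro h
    have := congrArg FreeGroup.toWord h
    rw [toWord_w hab, toWord_one] at this
    exact List.cons_ne_nil _ _ this
  · rintro ⟨x, hx, h1, h2, h3⟩
    rw [toWord_w hab] at h1 h2 h3
    exact no_overlap hab i i x hx h3 h2 h1

theorem nso_neg {a b : α} (hab : a ≠ b) (i : ℕ) : NonSelfOverlapping (w a b i)⁻¹ := by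
  refine ⟨?_, ?_⟩
  · intro h
    exact (nso_pos hab i).1 (inv_eq_one.1 h)
  · rintro ⟨x, hx, h1, h2, h3⟩
    rw [toWord_inv, FreeGroup.invRev_length, toWord_w hab] at h1
    rw [toWord_inv, toWord_w hab] at h2 h3
    refine no_overlap hab i i (FreeGroup.invRev x) (invRev_ne_nil hx) ?_ ?_ ?_
    · have := invRev_prefix h2
      rwa [FreeGroup.invRev_invRev] at this
    · have := invRev_suffix h3
      rwa [FreeGroup.invRev_invRev] at this
    · rwa [FreeGroup.invRev_length]

/-- The vertex set. -/
def VV (a b : α) : Set (FreeGroup α) := {g | ∃ n, g = w a b n ∨ g = (w a b n)⁻¹}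

theorem w_injective {a b : α} (hab : a ≠ b) : Function.Injective (w a b) := by
  intro i j h
  have h1 := congrArg FreeGroup.toWord h
  rw [toWord_w hab, toWord_w hab] at h1
  have h2 := congrArg List.length h1
  rw [W_length, W_length] at h2
  have h3 : 2 ^ (i + 1) = 2 ^ (j + 1) := by omega
  have := Nat.pow_right_injective (le_refl 2) h3
  omega

theorem w_ne_inv {a b : α} (hab : a ≠ b) (i j : ℕ) : w a b i ≠ (w a b j)⁻¹ := by
  intro h
  have h1 := congrArg FreeGroup.toWord h
  rw [toWord_inv, toWord_w hab, toWord_w hab] at h1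
  obtain ⟨l, t, hl⟩ := last_X a b i
  have h2 := congrArg List.getLast? h1
  rw [W, hl] at h2
  rw [show (b, true) :: (b, true) :: (l ++ [(a, t)]) = ((b, true) :: (b, true) :: l) ++ [(a, t)]
    from rfl, List.getLast?_append, W] at h2
  rw [show (b, true) :: (b, true) :: X a b j = [(b, true)] ++ ([(b, true)] ++ X a b j) from rfl,
    FreeGroup.invRev_append, List.getLast?_append] at h2
  simp [FreeGroup.invRev] at h2
  exact hab h2.1

theorem clique_OG {a b : α} (hab : a ≠ b) : cliqueNumber (OG (VV a b)) = 2 := by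
  classical
  apply le_antisymm
  · refine iSup₂_le fun s hs => ?_
    let col : VV a b → Bool := fun g => decide (∃ n, g.1 = w a b n)
    have hinj : Set.InjOn col (s : Set (VV a b)) := by
      intro g hg g' hg' hcol
      by_contra hne
      have hadj := hs hg hg' hne
      obtain ⟨-, hadj⟩ := hadj
      by_cases hc : ∃ n, g.1 = w a b n
      · have hc' : ∃ n, g'.1 = w a b n := by
          have : col g = true := decide_eq_true hc
          rw [this] at hcol
          exact of_decide_eq_true hcol.symm
        obtain ⟨i, hi⟩ := hc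
        obtain ⟨j, hj⟩ := hc'
        rw [hi, hj] at hadj
        rcases hadj with h | h
        · exact not_overlap_pos hab _ _ h
        · exact not_overlap_pos hab _ _ h
      · have hc' : ¬ ∃ n, g'.1 = w a b n := by
          have : col g = false := decide_eq_false hc
          rw [this] at hcol
          exact of_decide_eq_false hcol.symm
        obtain ⟨i, hi⟩ := g.2
        obtain ⟨j, hj⟩ := g'.2
        have hi' : g.1 = (w a b i)⁻¹ := hi.resolve_left fun h => hc ⟨i, h⟩
        have hj' : g'.1 = (w a b j)⁻¹ := hj.resolve_left fun h => hc' ⟨j, h⟩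
        rw [hi', hj'] at hadj
        rcases hadj with h | h
        · exact not_overlap_neg hab _ _ h
        · exact not_overlap_neg hab _ _ h
    have h1 : s.card ≤ (Finset.univ : Finset Bool).card :=
      Finset.card_le_card_of_injOn col (fun _ _ => Finset.mem_univ _) hinj
    have h2 : s.card ≤ 2 := by simpa using h1
    exact_mod_cast h2
  · let g : VV a b := ⟨w a b 0, 0, Or.inl rfl⟩
    let g' : VV a b := ⟨(w a b 1)⁻¹, 1, Or.inr rfl⟩
    have hne : g ≠ g' := by
      intro h
      exact w_ne_inv hab 0 1 (congrArg Subtype.val h)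
    have hcl : (OG (VV a b)).IsClique (({g, g'} : Finset (VV a b)) : Set (VV a b)) := by
      rw [Finset.coe_pair, SimpleGraph.isClique_pair]
      intro _
      exact ⟨hne, Or.inl (overlap_pos_neg hab Nat.zero_lt_one)⟩
    have h2 : ({g, g'} : Finset (VV a b)).card = 2 := Finset.card_pair hne
    calc (2 : ℕ∞) = ((({g, g'} : Finset (VV a b)).card : ℕ) : ℕ∞) := by rw [h2]; rfl
      _ ≤ _ := le_iSup₂_of_le ({g, g'} : Finset (VV a b)) hcl le_rfl

theorem clique_OGbar {a b : α} (hab : a ≠ b) : cliqueNumber (OGbar (VV a b)) = ⊤ := by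
  classical
  let f : ℕ → {S : Set (FreeGroup α) // ∃ w ∈ VV a b, S = {w, w⁻¹}} := fun n =>
    ⟨{w a b n, (w a b n)⁻¹}, w a b n, ⟨n, Or.inl rfl⟩, rfl⟩
  have hf : Function.Injective f := by
    intro i j h
    have h1 : ({w a b i, (w a b i)⁻¹} : Set (FreeGroup α)) = {w a b j, (w a b j)⁻¹} :=
      congrArg Subtype.val h
    have h2 : w a b i ∈ ({w a b j, (w a b j)⁻¹} : Set (FreeGroup α)) := by
      rw [← h1]; exact Or.inl rfl
    rcases h2 with h2 | h2
    · exact w_injective hab h2
    · exact absurd h2 (w_ne_inv hab i j)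
  have key : ∀ i j, i < j → (OGbar (VV a b)).Adj (f i) (f j) := by
    intro i j hij
    refine ⟨fun h => hij.ne (hf h), w a b i, Or.inl rfl, (w a b j)⁻¹, Or.inr rfl,
      Or.inl (overlap_pos_neg hab hij)⟩
  rw [ENat.eq_top_iff_forall_ge]
  intro n
  have hcl : (OGbar (VV a b)).IsClique (((Finset.range n).image f : Finset _) : Set _) := by
    intro x hx y hy hxy
    simp only [Finset.coe_image, Set.mem_image] at hx hy
    obtain ⟨i, _, rfl⟩ := hx
    obtain ⟨j, _, rfl⟩ := hy
    have hij : i ≠ j := fun h => hxy (by rw [h])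
    rcases lt_or_gt_of_ne hij with h | h
    · exact key i j h
    · exact (key j i h).symm
  have hcard : ((Finset.range n).image f).card = n := by
    rw [Finset.card_image_of_injective _ hf, Finset.card_range]
  calc (n : ℕ∞) = ((((Finset.range n).image f).card : ℕ) : ℕ∞) := by rw [hcard]
    _ ≤ _ := le_iSup₂_of_le ((Finset.range n).image f) hcl le_rfl

/-- For every finite rank `r ≥ 2` there is a symmetric set `V` of non-self-overlapping words of the
free group of rank `r` with `ω(OG(V)) = 2` whose quotient graph by inversion has infinite clique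
number. -/
theorem result (r : ℕ) (hr : 2 ≤ r) :
    ∃ V : Set (FreeGroup (Fin r)), (∀ g ∈ V, g⁻¹ ∈ V) ∧ (∀ g ∈ V, NonSelfOverlapping g) ∧
      cliqueNumber (OG V) = 2 ∧ cliqueNumber (OGbar V) = ⊤ := by
  have hab : (⟨0, by omega⟩ : Fin r) ≠ ⟨1, by omega⟩ := by
    intro h
    have := congrArg Fin.val h
    simp at this
  refine ⟨VV ⟨0, by omega⟩ ⟨1, by omega⟩, ?_, ?_, clique_OG hab, clique_OGbar hab⟩
  · rintro g ⟨n, rfl | rfl⟩
    · exact ⟨n, Or.inr rfl⟩
    · exact ⟨n, Or.inl (inv_inv _)⟩
  · rintro g ⟨n, rfl | rfl⟩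
    · exact nso_pos hab n
    · exact nso_neg hab n

end Pool.Agent.Results.MP_81fdd0_co.InfiniteQuotientClique
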